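import Pool.Agent.Helper50.PT.Rank
import Mathlib.Algebra.Polynomial.Laurent

/-!
# Groups of matrices of degree two over Laurent polynomial rings
-/

set_option autoImplicit false

namespace Pool.Agent.Helper50.PT

open WithZero Pool.Agent.Helper29.BA Pool.Agent.Helper29.PA Pool.Agent.Helper3.FJ Pool.Agent.T59
  LaurentPolynomial

open scoped Matrix MatrixGroups Polynomial

variable {A : Type} [CommRing A] [IsDomain A]

theorem powers_le : Submonoid.powers (Polynomial.X : A[X]) ≤ (degVal A).supp.primeCompl := by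
  rintro _ ⟨n, rfl⟩ h
  have := degVal_zero _ h
  exact pow_ne_zero n Polynomial.X_ne_zero this

variable (A) in
/-- The place at infinity. -/
noncomputable def val₁ : Valuation A[T;T⁻¹] ℤᵐ⁰ :=
  (degVal A).extendToLocalization powers_le A[T;T⁻¹]

theorem val₁_apply (p : A[X]) : val₁ A (Polynomial.toLaurent p) = degVal A p :=
  (degVal A).extendToLocalization_apply_map_apply powers_le A[T;T⁻¹] p

theorem val₁_T_one : val₁ A (T 1) = exp 1 := by
  rw [← Polynomial.toLaurent_X, val₁_apply, degVal_X]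

theorem val₁_T (n : ℤ) : val₁ A (T n) = exp n := by
  have key : ∀ n : ℕ, val₁ A (T (n : ℤ)) = exp (n : ℤ) := by
    intro n
    rw [← Polynomial.toLaurent_X_pow, map_pow, Polynomial.toLaurent_X, map_pow, val₁_T_one, ← exp_nsmul,
      nsmul_eq_mul, mul_one]
  rcases Int.eq_nat_or_neg n with ⟨m, rfl | rfl⟩
  · exact key m
  · have h1 : val₁ A (T (-(m : ℤ))) * val₁ A (T (m : ℤ)) = 1 := by
      rw [← map_mul, ← T_add, neg_add_cancel, T_zero, map_one]
    rw [key, ← exp_zero (M := ℤ), ← neg_add_cancel (m : ℤ), exp_add] at h1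
    exact mul_right_cancel₀ exp_ne_zero h1

theorem val₁_zero (x : A[T;T⁻¹]) (hx : val₁ A x = 0) : x = 0 := by
  induction x using LaurentPolynomial.induction_on_mul_T with
  | _ q n =>
    rw [map_mul, val₁_apply, val₁_T, mul_eq_zero] at hx
    rcases hx with hx | hx
    · rw [degVal_zero _ hx, map_zero, zero_mul]
    · exact absurd hx exp_ne_zero

variable (A) in
/-- The place at zero. -/
noncomputable def val₂ : Valuation A[T;T⁻¹] ℤᵐ⁰ :=
  (val₁ A).comap (invert (R := A)).toAlgHom.toRingHom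

theorem val₂_apply (x : A[T;T⁻¹]) : val₂ A x = val₁ A (invert x) := rfl

theorem val₂_zero (x : A[T;T⁻¹]) (hx : val₂ A x = 0) : x = 0 := by
  have := val₁_zero _ hx
  exact (invert (R := A)).injective (this.trans (map_zero _).symm)

theorem val_prod (x : A[T;T⁻¹]) (hx : x ≠ 0) : 1 ≤ val₁ A x ^ 1 * val₂ A x ^ 1 := by
  rw [pow_one, pow_one]
  induction x using LaurentPolynomial.induction_on_mul_T with
  | _ q n =>
    have hq : q ≠ 0 := by
      rintro rfl
      rw [map_zero, zero_mul] at hx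
      exact hx rfl
    have h1 : val₁ A (Polynomial.toLaurent q.reverse) =
        val₂ A (Polynomial.toLaurent q) * exp (q.natDegree : ℤ) := by
      rw [toLaurent_reverse, map_mul, val₁_T]
      rfl
    rw [val₁_apply, degVal_of_ne (by rwa [Ne, Polynomial.reverse_eq_zero])] at h1
    rw [map_mul, val₁_apply, val₁_T, degVal_of_ne hq, map_mul, val₂_apply (T _), invert_T, neg_neg,
      val₁_T]
    have h2 : exp (q.natDegree : ℤ) * exp (-(n : ℤ)) * (val₂ A (Polynomial.toLaurent q) * exp (n : ℤ)) =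
        val₂ A (Polynomial.toLaurent q) * exp (q.natDegree : ℤ) * (exp (-(n : ℤ)) * exp (n : ℤ)) := by
      ac_rfl
    rw [h2, ← h1, ← exp_add, neg_add_cancel, exp_zero, mul_one, ← exp_zero, exp_le_exp]
    exact Int.natCast_nonneg _

theorem val_s : exp 1 ≤ val₁ A (T 1 - 1) ^ 1 * val₂ A (T 1 - 1) ^ 1 := by
  rw [pow_one, pow_one]
  have h1 : (T 1 - 1 : A[T;T⁻¹]) = Polynomial.toLaurent (Polynomial.X - Polynomial.C 1) := by
    rw [map_sub, Polynomial.toLaurent_X, Polynomial.toLaurent_C, map_one]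
  have h2 : val₁ A (T 1 - 1) = exp 1 := by
    rw [h1, val₁_apply, degVal_of_ne (Polynomial.X_sub_C_ne_zero 1), Polynomial.natDegree_X_sub_C]
    rfl
  have h3 : (invert (T 1 - 1) : A[T;T⁻¹]) = - (T (-1) * (T 1 - 1)) := by
    rw [map_sub, invert_T, map_one, mul_sub, ← T_add, neg_add_cancel, T_zero, mul_one]
    ring
  have h4 : val₂ A (T 1 - 1) = 1 := by
    rw [val₂_apply, h3, Valuation.map_neg, map_mul, h2, val₁_T, ← exp_add, neg_add_cancel, exp_zero]
  rw [h2, h4, mul_one]

/-- Evaluation at one. -/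
noncomputable def ev₁ : A[T;T⁻¹] ⧸ Ideal.span {(T 1 - 1 : A[T;T⁻¹])} →+* A :=
  Ideal.Quotient.lift _ (LaurentPolynomial.eval₂ (RingHom.id A) 1) fun a ha => by
    obtain ⟨b, rfl⟩ := Ideal.mem_span_singleton.1 ha
    rw [map_mul, map_sub, eval₂_T, map_one, one_zpow, Units.val_one, sub_self, zero_mul]

theorem ev₁_inj : Function.Injective (ev₁ (A := A)) := by
  rw [injective_iff_map_eq_zero]
  intro x hx
  obtain ⟨x, rfl⟩ := Ideal.Quotient.mk_surjective x
  rw [Ideal.Quotient.eq_zero_iff_mem, Ideal.mem_span_singleton]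
  change LaurentPolynomial.eval₂ (RingHom.id A) 1 x = 0 at hx
  induction x using LaurentPolynomial.induction_on_mul_T with
  | _ q n =>
    rw [map_mul, eval₂_toLaurent, eval₂_T, one_zpow, Units.val_one, mul_one, Polynomial.eval₂_id] at hx
    obtain ⟨r, rfl⟩ := Polynomial.dvd_iff_isRoot.2 hx
    refine ⟨Polynomial.toLaurent r * T (-(n : ℤ)), ?_⟩
    rw [map_mul, map_sub, Polynomial.toLaurent_X, Polynomial.toLaurent_C, map_one]
    ring

variable {C : ∀ (G : Type) [Group G], Prop}

/-- **`GL_2` over Laurent polynomial rings.** -/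
theorem GL_laurent (hC : CatClass C) (hE : ExtClass C) (hA : HasAbCyclic C)
    (h : C (GL (Fin 2) A)) : C (GL (Fin 2) A[T;T⁻¹]) :=
  GL_two_places (w₁ := val₁ A) (w₂ := val₂ A) hC hE hA val₁_zero val₂_zero (T 1) (T (-1))
    (val₁_T 1) (by rw [val₂_apply, invert_T, neg_neg, val₁_T]) val_prod val_s
    (hC.inj (Matrix.GeneralLinearGroup.map ev₁) (mapGL_inj _ ev₁_inj) h)

/-- **`SL_2` over Laurent polynomial rings.** -/
theorem SL_laurent (hC : CatClass C) (hE : ExtClass C) (hA : HasAbCyclic C)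
    (h : C (Matrix.SpecialLinearGroup (Fin 2) A)) :
    C (Matrix.SpecialLinearGroup (Fin 2) A[T;T⁻¹]) :=
  SL_two_places (w₁ := val₁ A) (w₂ := val₂ A) hC hE hA val₁_zero val₂_zero (T 1) (T (-1))
    (val₁_T 1) (by rw [val₂_apply, invert_T, neg_neg, val₁_T]) val_prod val_s
    (hC.inj (Matrix.SpecialLinearGroup.map ev₁) (mapSL_inj _ ev₁_inj) h)

end Pool.Agent.Helper50.PT
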