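import Pool.Agent.Helper26.GT.Main

/-!
# Groups acting on a product of two trees
-/

set_option autoImplicit false

namespace Pool.Agent.Helper50.PT

open Relation Real Pool.Agent.Helper29.BA Pool.Agent.Helper29.PA Pool.Agent.Helper3.FJ
  Pool.Agent.Helper3.FJ.Cpx Pool.Agent.Helper13.GT

/-- `c` is a 2-colouring. -/
def Bip {V : Type} (T : Cpx V) (c : V → Bool) : Prop := ∀ u v, T.adj u v → c v = !c u

/-- Simply connected graphs are bipartite. -/
theorem exists_bip {V : Type} {T : Cpx V} (hT : T.SimplyConn) (ht : ∀ u v w, ¬ T.tri u v w) :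
    ∃ c : V → Bool, Bip T c := by
  classical
  obtain ⟨g, hg⟩ := hT.2.2 ℤˣ (fun _ _ => -1)
    ⟨fun _ _ _ => by norm_num, fun u v w h => absurd h (ht u v w)⟩
  refine ⟨fun v => decide (g v = 1), fun u v h => ?_⟩
  have h1 : g u * -1 = g v := eq_inv_mul_iff_mul_eq.1 (hg u v h)
  rcases Int.units_eq_one_or (g u) with h2 | h2
  · rw [h2] at h1
    simp only [← h1, h2]
    decide
  · rw [h2] at h1
    simp only [← h1, h2]
    decide

theorem two_adj {V : Type} {T : Cpx V} {c : V → Bool} (h : Bip T c) {x y z : V}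
    (hxy : x = y ∨ T.adj x y) (hyz : y = z ∨ T.adj y z) (hxz : x = z ∨ T.adj x z) :
    (x = y ∧ y = z) ∨ (x = y ∧ T.adj x z ∧ T.adj y z) ∨ (y = z ∧ T.adj x y ∧ T.adj x z) ∨
      (x = z ∧ T.adj x y ∧ T.adj y z) := by
  rcases hxy with rfl | hxy
  · rcases hyz with rfl | hyz
    · exact Or.inl ⟨rfl, rfl⟩
    · exact Or.inr (Or.inl ⟨rfl, hyz, hyz⟩)
  · rcases hyz with rfl | hyz
    · exact Or.inr (Or.inr (Or.inl ⟨rfl, hxy, hxy⟩))
    · rcases hxz with rfl | hxz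
      · exact Or.inr (Or.inr (Or.inr ⟨rfl, hxy, hyz⟩))
      · have h1 := h _ _ hxy
        have h2 := h _ _ hyz
        have h3 := h _ _ hxz
        rw [h1, Bool.not_not] at h2
        rw [h2] at h3
        cases hc : c x <;> rw [hc] at h3 <;> cases h3

theorem Bip.ne {V : Type} {T : Cpx V} {c : V → Bool} (h : Bip T c) {x y : V} (ha : T.adj x y) :
    x ≠ y := by
  rintro rfl
  exact T.adj_irrefl _ ha

section product

variable {V₁ V₂ : Type} (T₁ : Cpx V₁) (T₂ : Cpx V₂) (c₁ : V₁ → Bool) (c₂ : V₂ → Bool)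

/-- The edges of the product: horizontal and vertical edges, and diagonals of the squares at the
vertices with equal colours. -/
def Ad (x y : V₁ × V₂) : Prop :=
  (x.1 = y.1 ∨ T₁.adj x.1 y.1) ∧ (x.2 = y.2 ∨ T₂.adj x.2 y.2) ∧ x ≠ y ∧
    (T₁.adj x.1 y.1 → T₂.adj x.2 y.2 → c₁ x.1 = c₂ x.2)

variable {T₁ T₂ c₁ c₂}

theorem Ad.symm (h₁ : Bip T₁ c₁) (h₂ : Bip T₂ c₂) {x y : V₁ × V₂} (h : Ad T₁ T₂ c₁ c₂ x y) :
    Ad T₁ T₂ c₁ c₂ y x := by
  obtain ⟨h3, h4, h5, h6⟩ := h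
  refine ⟨h3.imp Eq.symm (T₁.adj_symm _ _), h4.imp Eq.symm (T₂.adj_symm _ _), h5.symm,
    fun h7 h8 => ?_⟩
  have h9 := h6 (T₁.adj_symm _ _ h7) (T₂.adj_symm _ _ h8)
  have h10 := h₁ _ _ h7
  have h11 := h₂ _ _ h8
  rw [h9, h11] at h10
  exact (Bool.not_inj h10).symm

/-- The product. -/
def prodC (h₁ : Bip T₁ c₁) (h₂ : Bip T₂ c₂) : Cpx (V₁ × V₂) where
  adj := Ad T₁ T₂ c₁ c₂
  tri x y z := Ad T₁ T₂ c₁ c₂ x y ∧ Ad T₁ T₂ c₁ c₂ y z ∧ Ad T₁ T₂ c₁ c₂ x z
  adj_symm x y h := h.symm h₁ h₂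
  adj_irrefl x h := h.2.2.1 rfl
  tri_rot x y z h := ⟨h.2.1, h.2.2.symm h₁ h₂, h.1.symm h₁ h₂⟩
  tri_flip x y z h := ⟨h.1.symm h₁ h₂, h.2.2, h.2.1⟩
  tri_adj x y z h := h.1

open Classical in
/-- The lengths. -/
noncomputable def len (x y : V₁ × V₂) : ℝ := if x.1 = y.1 ∨ x.2 = y.2 then 1 else √2

theorem len_one {x y : V₁ × V₂} (h : x.1 = y.1 ∨ x.2 = y.2) : len x y = 1 := if_pos h

theorem len_two {x y : V₁ × V₂} (h1 : x.1 ≠ y.1) (h2 : x.2 ≠ y.2) : len x y = √2 :=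
  if_neg (by rintro (h | h); exacts [h1 h, h2 h])

theorem one_le_len (x y : V₁ × V₂) : 1 ≤ len x y := by
  by_cases h : x.1 = y.1 ∨ x.2 = y.2
  · rw [len_one h]
  · push Not at h
    rw [len_two h.1 h.2]
    exact Real.one_le_sqrt.2 (by norm_num)

theorem len_lt_two (x y : V₁ × V₂) : len x y < 2 := by
  by_cases h : x.1 = y.1 ∨ x.2 = y.2
  · rw [len_one h]
    norm_num
  · push Not at h
    rw [len_two h.1 h.2, Real.sqrt_lt' (by norm_num)]
    norm_num

theorem len_symm (x y : V₁ × V₂) : len x y = len y x := by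
  by_cases h : x.1 = y.1 ∨ x.2 = y.2
  · rw [len_one h, len_one (h.imp Eq.symm Eq.symm)]
  · push Not at h
    rw [len_two h.1 h.2, len_two h.1.symm h.2.symm]

theorem prod_metric (h₁ : Bip T₁ c₁) (h₂ : Bip T₂ c₂) : (prodC h₁ h₂).Metric len where
  symm := len_symm
  pos u v _ := lt_of_lt_of_le one_pos (one_le_len u v)
  tri u v w _ := by
    have h1 := len_lt_two u w
    have h2 := one_le_len u v
    have h3 := one_le_len v w
    linarith

/-- The triangles at `x`. -/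
theorem tri_cases (h₁ : Bip T₁ c₁) (h₂ : Bip T₂ c₂) {x y z : V₁ × V₂}
    (h : (prodC h₁ h₂).tri x y z) :
    (c₁ x.1 ≠ c₂ x.2 ∧ ((x.1 = y.1 ∧ x.2 ≠ y.2 ∧ x.1 ≠ z.1 ∧ x.2 = z.2) ∨
      (x.1 ≠ y.1 ∧ x.2 = y.2 ∧ x.1 = z.1 ∧ x.2 ≠ z.2))) ∨
    (c₁ x.1 = c₂ x.2 ∧
      ((x.1 ≠ z.1 ∧ x.2 ≠ z.2 ∧ ((x.1 = y.1 ∧ y.2 = z.2) ∨ (y.1 = z.1 ∧ x.2 = y.2))) ∨
      (x.1 ≠ y.1 ∧ x.2 ≠ y.2 ∧ ((x.1 = z.1 ∧ z.2 = y.2) ∨ (z.1 = y.1 ∧ x.2 = z.2))))) := by
  obtain ⟨hxy, hyz, hxz⟩ := h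
  have e1 := two_adj h₁ hxy.1 hyz.1 hxz.1
  have e2 := two_adj h₂ hxy.2.1 hyz.2.1 hxz.2.1
  have n1 := hxy.2.2.1
  have n2 := hyz.2.2.1
  have n3 := hxz.2.2.1
  rcases e1 with ⟨a1, a2⟩ | ⟨a1, a2, a3⟩ | ⟨a1, a2, a3⟩ | ⟨a1, a2, a3⟩
  · rcases e2 with ⟨b1, b2⟩ | ⟨b1, b2, b3⟩ | ⟨b1, b2, b3⟩ | ⟨b1, b2, b3⟩
    · exact absurd (Prod.ext a1 b1) n1
    · exact absurd (Prod.ext a1 b1) n1
    · exact absurd (Prod.ext a2 b1) n2
    · exact absurd (Prod.ext (a1.trans a2) b1) n3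
  · -- `x.1 = y.1`
    rcases e2 with ⟨b1, b2⟩ | ⟨b1, b2, b3⟩ | ⟨b1, b2, b3⟩ | ⟨b1, b2, b3⟩
    · exact absurd (Prod.ext a1 b1) n1
    · exact absurd (Prod.ext a1 b1) n1
    · -- `y.2 = z.2`
      refine Or.inr ⟨hxz.2.2.2 a2 b3, Or.inl ⟨h₁.ne a2, h₂.ne b3, Or.inl ⟨a1, b1⟩⟩⟩
    · -- `x.2 = z.2`
      refine Or.inl ⟨fun he => ?_, Or.inl ⟨a1, h₂.ne b2, h₁.ne a2, b1⟩⟩
      have h3 := hyz.2.2.2 a3 b3
      rw [← a1, h₂ _ _ b2, he] at h3
      cases hc : c₂ x.2 <;> rw [hc] at h3 <;> cases h3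
  · -- `y.1 = z.1`
    rcases e2 with ⟨b1, b2⟩ | ⟨b1, b2, b3⟩ | ⟨b1, b2, b3⟩ | ⟨b1, b2, b3⟩
    · exact absurd (Prod.ext a1 b2) n2
    · -- `x.2 = y.2`
      exact Or.inr ⟨hxz.2.2.2 a3 b2, Or.inl ⟨h₁.ne a3, h₂.ne b2, Or.inr ⟨a1, b1⟩⟩⟩
    · exact absurd (Prod.ext a1 b1) n2
    · -- `x.2 = z.2`
      exact Or.inr ⟨hxy.2.2.2 a2 b2, Or.inr ⟨h₁.ne a2, h₂.ne b2, Or.inr ⟨a1.symm, b1⟩⟩⟩
  · -- `x.1 = z.1`
    rcases e2 with ⟨b1, b2⟩ | ⟨b1, b2, b3⟩ | ⟨b1, b2, b3⟩ | ⟨b1, b2, b3⟩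
    · exact absurd (Prod.ext a1 (b1.trans b2)) n3
    · -- `x.2 = y.2`
      refine Or.inl ⟨fun he => ?_, Or.inr ⟨h₁.ne a2, b1, a1, h₂.ne b2⟩⟩
      have h3 := hyz.2.2.2 a3 b3
      rw [← b1, h₁ _ _ a2, he] at h3
      cases hc : c₂ x.2 <;> rw [hc] at h3 <;> cases h3
    · -- `y.2 = z.2`
      exact Or.inr ⟨hxy.2.2.2 a2 b2, Or.inr ⟨h₁.ne a2, h₂.ne b2, Or.inl ⟨a1, b1.symm⟩⟩⟩
    · exact absurd (Prod.ext a1 b1) n3

theorem ang_right (h₁ : Bip T₁ c₁) (h₂ : Bip T₂ c₂) {x y z : V₁ × V₂}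
    (h : (prodC h₁ h₂).tri x y z) (hc : c₁ x.1 ≠ c₂ x.2) : ang len x y z = π / 2 := by
  have key : len x y = 1 ∧ len x z = 1 ∧ len y z = √2 := by
    rcases tri_cases h₁ h₂ h with ⟨-, ⟨h3, h4, h5, h6⟩ | ⟨h3, h4, h5, h6⟩⟩ | ⟨h3, -⟩
    · exact ⟨len_one (Or.inl h3), len_one (Or.inr h6), len_two (by rwa [← h3]) (by
        rw [← h6]; exact h4.symm)⟩
    · exact ⟨len_one (Or.inr h4), len_one (Or.inl h5), len_two (by rw [← h5]; exact h3.symm)
        (by rwa [← h4])⟩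
    · exact absurd h3 hc
  unfold ang
  rw [key.1, key.2.1, key.2.2, Real.sq_sqrt (by norm_num)]
  norm_num

theorem arccos_aux : Real.arccos ((1 ^ 2 + √2 ^ 2 - 1 ^ 2) / (2 * 1 * √2)) = π / 4 := by
  have h1 : (1 ^ 2 + √2 ^ 2 - 1 ^ 2) / (2 * 1 * √2) = √2 / 2 := by
    rw [Real.sq_sqrt (by norm_num)]
    have h2 : √2 ≠ 0 := by positivity
    field_simp
    rw [Real.sq_sqrt (by norm_num)]
    norm_num
  rw [h1, ← Real.cos_pi_div_four, Real.arccos_cos (by positivity) (by linarith [Real.pi_pos])]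

theorem ang_half (h₁ : Bip T₁ c₁) (h₂ : Bip T₂ c₂) {x y z : V₁ × V₂}
    (h : (prodC h₁ h₂).tri x y z) (hc : c₁ x.1 = c₂ x.2) : ang len x y z = π / 4 := by
  have key : (len x y = 1 ∧ len x z = √2 ∧ len y z = 1) ∨
      (len x y = √2 ∧ len x z = 1 ∧ len y z = 1) := by
    rcases tri_cases h₁ h₂ h with ⟨h3, -⟩ | ⟨-, ⟨h3, h4, h5⟩ | ⟨h3, h4, h5⟩⟩
    · exact absurd hc h3
    · left
      refine ⟨len_one ?_, len_two h3 h4, len_one ?_⟩
      · exact h5.imp And.left And.right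
      · exact (h5.imp And.right And.left).symm
    · right
      refine ⟨len_two h3 h4, len_one ?_, len_one ?_⟩
      · exact h5.imp And.left And.right
      · exact (h5.imp (fun h => h.2.symm) (fun h => h.1.symm)).symm
  unfold ang
  rcases key with ⟨k1, k2, k3⟩ | ⟨k1, k2, k3⟩
  · rw [k1, k2, k3]
    exact arccos_aux
  · rw [k1, k2, k3]
    rw [← arccos_aux]
    congr 1
    ring

/-- An alternating predicate. -/
theorem even_of_alt {n : ℕ} {P : ZMod n → Prop} (h : ∀ i, P i ↔ ¬ P (i + 1)) : Even n := by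
  have key : ∀ m : ℕ, P (m : ZMod n) ↔ (P 0 ↔ Even m) := by
    intro m
    induction m with
    | zero => simp
    | succ m ih =>
      have h1 := h (m : ZMod n)
      rw [Nat.even_add_one]
      push_cast
      tauto
  have h1 := key n
  rw [ZMod.natCast_self] at h1
  tauto

theorem prod_link (h₁ : Bip T₁ c₁) (h₂ : Bip T₂ c₂) : (prodC h₁ h₂).LinkCond len := by
  intro v k u hu ht
  by_cases hc : c₁ v.1 = c₂ v.2
  · have h8 : 8 ≤ k + 3 := by
      -- the diagonal neighbours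
      let D : V₁ × V₂ → Prop := fun y => v.1 ≠ y.1 ∧ v.2 ≠ y.2
      have hD : ∀ y z, (prodC h₁ h₂).tri v y z → (D y ↔ ¬ D z) := by
        intro y z h
        rcases tri_cases h₁ h₂ h with ⟨h3, -⟩ | ⟨-, ⟨h3, h4, h5⟩ | ⟨h3, h4, h5⟩⟩
        · exact absurd hc h3
        · have h6 : ¬ D y := by
            rintro ⟨h7, h8⟩
            rcases h5 with h5 | h5
            · exact h7 h5.1
            · exact h8 h5.2
          exact ⟨fun h7 => absurd h7 h6, fun h7 => absurd ⟨h3, h4⟩ h7⟩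
        · have h6 : ¬ D z := by
            rintro ⟨h7, h8⟩
            rcases h5 with h5 | h5
            · exact h7 h5.1
            · exact h8 h5.2
          exact ⟨fun _ => h6, fun _ => ⟨h3, h4⟩⟩
      -- the sides of a diagonal neighbour
      have hS : ∀ y w, (prodC h₁ h₂).tri v y w → D w → y = (v.1, w.2) ∨ y = (w.1, v.2) := by
        intro y w h hw
        rcases tri_cases h₁ h₂ h with ⟨h3, -⟩ | ⟨-, ⟨h3, h4, h5⟩ | ⟨h3, h4, h5⟩⟩
        · exact absurd hc h3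
        · rcases h5 with h5 | h5
          · exact Or.inl (Prod.ext h5.1.symm h5.2)
          · exact Or.inr (Prod.ext h5.1 h5.2.symm)
        · rcases h5 with h5 | h5
          · exact absurd h5.1 hw.1
          · exact absurd h5.2 hw.2
      have hS' : ∀ w y, (prodC h₁ h₂).tri v w y → D w → y = (v.1, w.2) ∨ y = (w.1, v.2) :=
        fun w y h hw => hS y w ((prodC h₁ h₂).tri_flip _ _ _
          ((prodC h₁ h₂).tri_rot _ _ _ ((prodC h₁ h₂).tri_rot _ _ _ h))) hw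
      have hev := even_of_alt (n := k + 3) (P := fun i => D (u i)) fun i => hD _ _ (ht i)
      by_contra hlt
      -- a diagonal neighbour on the circuit
      obtain ⟨i, hi⟩ : ∃ i, D (u i) := by
        by_cases h0 : D (u 0)
        · exact ⟨0, h0⟩
        · refine ⟨0 + 1, ?_⟩
          by_contra h1
          exact h0 ((hD _ _ (ht 0)).2 h1)
      have hi1 : ¬ D (u (i + 1)) := (hD _ _ (ht i)).1 hi
      have hi2 : D (u (i + 1 + 1)) := by
        by_contra h1
        exact hi1 ((hD _ _ (ht (i + 1))).2 h1)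
      have hk : k = 1 ∨ k = 3 := by
        rcases hev with ⟨m, hm⟩
        omega
      rcases hk with rfl | rfl
      · -- circuits of length four
        have e4 : ∀ j : ZMod 4, j + 1 + 1 + 1 + 1 = j := by decide
        have n1 : ∀ j : ZMod 4, j ≠ j + 1 + 1 := by decide
        have n2 : ∀ j : ZMod 4, j + 1 ≠ j + 1 + 1 + 1 := by decide
        have t0 := ht i
        have t1 := ht (i + 1)
        have t2 := ht (i + 1 + 1)
        have t3 := ht (i + 1 + 1 + 1)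
        rw [e4 i] at t3
        have s0 := hS' _ _ t0 hi
        have s3 := hS _ _ t3 hi
        have s1 := hS _ _ t1 hi2
        have s2 := hS' _ _ t2 hi2
        have hne : u (i + 1) ≠ u (i + 1 + 1 + 1) := fun h => n2 i (hu h)
        have hfin : ∀ a b w w' : V₁ × V₂, D w → D w' → a ≠ b →
            (a = (v.1, w.2) ∨ a = (w.1, v.2)) → (b = (v.1, w.2) ∨ b = (w.1, v.2)) →
            (a = (v.1, w'.2) ∨ a = (w'.1, v.2)) → (b = (v.1, w'.2) ∨ b = (w'.1, v.2)) →
            w = w' := by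
          intro a b w w' hw hw' hab a1 b1 a2 b2
          rcases a1 with rfl | rfl
          · rcases b1 with rfl | rfl
            · exact absurd rfl hab
            · have e1 : w.2 = w'.2 := by
                rcases a2 with h | h
                · exact (Prod.ext_iff.1 h).2
                · exact absurd (Prod.ext_iff.1 h).1 hw'.1
              have e2 : w.1 = w'.1 := by
                rcases b2 with h | h
                · exact absurd (Prod.ext_iff.1 h).2 hw'.2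
                · exact (Prod.ext_iff.1 h).1
              exact Prod.ext e2 e1
          · rcases b1 with rfl | rfl
            · have e1 : w.2 = w'.2 := by
                rcases b2 with h | h
                · exact (Prod.ext_iff.1 h).2
                · exact absurd (Prod.ext_iff.1 h).1 hw'.1
              have e2 : w.1 = w'.1 := by
                rcases a2 with h | h
                · exact absurd (Prod.ext_iff.1 h).2 hw'.2
                · exact (Prod.ext_iff.1 h).1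
              exact Prod.ext e2 e1
            · exact absurd rfl hab
        exact n1 i (hu (hfin _ _ _ _ hi hi2 hne s0 s3 s1 s2))
      · -- circuits of length six
        have e6 : ∀ j : ZMod 6, j + 1 + 1 + 1 + 1 + 1 + 1 = j := by decide
        have n2 : ∀ j : ZMod 6, j ≠ j + 1 + 1 := by decide
        have hi3 : ¬ D (u (i + 1 + 1 + 1)) := (hD _ _ (ht (i + 1 + 1))).1 hi2
        have hi4 : D (u (i + 1 + 1 + 1 + 1)) := by
          by_contra h1
          exact hi3 ((hD _ _ (ht (i + 1 + 1 + 1))).2 h1)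
        have hF : ∀ j, D (u (j + 1)) → ((u j).1 = v.1 ↔ ¬ (u (j + 1 + 1)).1 = v.1) := by
          intro j hj
          have s1 := hS _ _ (ht j) hj
          have s2 := hS' _ _ (ht (j + 1)) hj
          have hne : u j ≠ u (j + 1 + 1) := fun h => n2 j (hu h)
          rcases s1 with s1 | s1
          · rcases s2 with s2 | s2
            · exact absurd (s1.trans s2.symm) hne
            · rw [s1, s2]
              exact ⟨fun _ h => hj.1 h.symm, fun _ => rfl⟩
          · rcases s2 with s2 | s2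
            · rw [s1, s2]
              exact ⟨fun h => absurd h.symm hj.1, fun h => absurd rfl h⟩
            · exact absurd (s1.trans s2.symm) hne
        have f1 := hF (i + 1) hi2
        have f2 := hF (i + 1 + 1 + 1) hi4
        have f3 := hF (i + 1 + 1 + 1 + 1 + 1) (by rw [e6 i]; exact hi)
        rw [e6 i] at f3
        tauto
    have h3 : ∀ i, ang len v (u i) (u (i + 1)) = π / 4 := fun i => ang_half h₁ h₂ (ht i) hc
    simp only [h3, Finset.sum_const, Finset.card_univ, ZMod.card, nsmul_eq_mul]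
    have h4 : (8 : ℝ) ≤ ((k + 3 : ℕ) : ℝ) := by exact_mod_cast h8
    nlinarith [Real.pi_pos]
  · have h4 : 4 ≤ k + 3 := by
      have hev := even_of_alt (n := k + 3) (P := fun i => v.1 = (u i).1) fun i => by
        rcases tri_cases h₁ h₂ (ht i) with ⟨-, ⟨h3, h4, h5, h6⟩ | ⟨h3, h4, h5, h6⟩⟩ | ⟨h3, -⟩
        · exact ⟨fun _ => h5, fun _ => h3⟩
        · exact ⟨fun h => absurd h h3, fun h => absurd h5 h⟩
        · exact absurd h3 hc
      rcases hev with ⟨m, hm⟩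
      omega
    have h3 : ∀ i, ang len v (u i) (u (i + 1)) = π / 2 := fun i => ang_right h₁ h₂ (ht i) hc
    simp only [h3, Finset.sum_const, Finset.card_univ, ZMod.card, nsmul_eq_mul]
    have h5 : (4 : ℝ) ≤ ((k + 3 : ℕ) : ℝ) := by exact_mod_cast h4
    nlinarith [Real.pi_pos]

/-- The product of two trees is simply connected. -/
theorem prod_simplyConn (h₁ : Bip T₁ c₁) (h₂ : Bip T₂ c₂) (s₁ : T₁.SimplyConn)
    (s₂ : T₂.SimplyConn) (t₁ : ∀ u v w, ¬ T₁.tri u v w) (t₂ : ∀ u v w, ¬ T₂.tri u v w) :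
    (prodC h₁ h₂).SimplyConn := by
  have ah : ∀ {a a' : V₁} (b : V₂), T₁.adj a a' → (prodC h₁ h₂).adj (a, b) (a', b) :=
    fun {a a'} b h => ⟨Or.inr h, Or.inl rfl, fun he => h₁.ne h (Prod.ext_iff.1 he).1,
      fun _ h' => absurd h' (T₂.adj_irrefl _)⟩
  have av : ∀ (a : V₁) {b b' : V₂}, T₂.adj b b' → (prodC h₁ h₂).adj (a, b) (a, b') :=
    fun a {b b'} h => ⟨Or.inl rfl, Or.inr h, fun he => h₂.ne h (Prod.ext_iff.1 he).2,
      fun h' => absurd h' (T₁.adj_irrefl _)⟩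
  have ad : ∀ {a a' : V₁} {b b' : V₂}, T₁.adj a a' → T₂.adj b b' → c₁ a = c₂ b →
      (prodC h₁ h₂).adj (a, b) (a', b') :=
    fun h h' hc => ⟨Or.inr h, Or.inr h', fun he => h₁.ne h (Prod.ext_iff.1 he).1,
      fun _ _ => hc⟩
  refine ⟨?_, ?_, ?_⟩
  · obtain ⟨a⟩ := s₁.1
    obtain ⟨b⟩ := s₂.1
    exact ⟨(a, b)⟩
  · rintro ⟨a, b⟩ ⟨a', b'⟩
    have h3 : ReflTransGen (prodC h₁ h₂).adj (a, b) (a', b) := by
      have := s₁.2.1 a a'
      induction this with
      | refl => exact ReflTransGen.refl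
      | tail _ h4 ih => exact ih.tail (ah b h4)
    have h4 : ReflTransGen (prodC h₁ h₂).adj (a', b) (a', b') := by
      have := s₂.2.1 b b'
      induction this with
      | refl => exact ReflTransGen.refl
      | tail _ h4 ih => exact ih.tail (av a' h4)
    exact h3.trans h4
  · intro H _ c hc
    -- the squares
    have sq : ∀ {a a' : V₁} {b b' : V₂}, T₁.adj a a' → T₂.adj b b' →
        c (a, b) (a', b) * c (a', b) (a', b') = c (a, b) (a, b') * c (a, b') (a', b') := by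
      have sq0 : ∀ {a a' : V₁} {b b' : V₂}, T₁.adj a a' → T₂.adj b b' → c₁ a = c₂ b →
          c (a, b) (a', b) * c (a', b) (a', b') = c (a, b) (a, b') * c (a, b') (a', b') := by
        intro a a' b b' h h' he
        have k1 := hc.2 (a, b) (a', b) (a', b') ⟨ah b h, av a' h', ad h h' he⟩
        have k2 := hc.2 (a, b) (a, b') (a', b') ⟨av a h', ah b' h, ad h h' he⟩
        exact (mul_eq_one_iff_eq_inv.1 k1).trans (mul_eq_one_iff_eq_inv.1 k2).symm
      intro a a' b b' h h'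
      by_cases he : c₁ a = c₂ b
      · exact sq0 h h' he
      · have he' : c₁ a' = c₂ b := by
          rw [h₁ _ _ h]
          cases hc1 : c₁ a <;> cases hc2 : c₂ b <;> simp_all
        have k := sq0 (T₁.adj_symm _ _ h) h' he'
        have i1 := hc.1 _ _ (ah b h)
        have i2 := hc.1 _ _ (ah b' h)
        rw [mul_eq_one_iff_eq_inv] at i1 i2
        rw [i1, i2, inv_mul_eq_iff_eq_mul, ← mul_assoc, k, mul_inv_cancel_right]
    have hex : ∀ b : V₂, ∃ g : V₁ → H, ∀ u v, T₁.adj u v → c (u, b) (v, b) = (g u)⁻¹ * g v :=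
      fun b => s₁.2.2 H (fun u v => c (u, b) (v, b)) ⟨fun u v h => hc.1 _ _ (ah b h),
        fun u v w h => absurd h (t₁ u v w)⟩
    choose g hg using hex
    -- the vertical part
    let K : V₂ → V₂ → V₁ → H := fun b b' a => g b a * c (a, b) (a, b') * (g b' a)⁻¹
    have hK1 : ∀ b b', T₂.adj b b' → ∀ a a', T₁.adj a a' → K b b' a = K b b' a' := by
      intro b b' hb a a' ha
      have k := sq ha hb
      rw [hg b a a' ha, hg b' a a' ha] at k
      change g b a * c (a, b) (a, b') * (g b' a)⁻¹ = g b a' * c (a', b) (a', b') * (g b' a')⁻¹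
      have k2 : g b a' * c (a', b) (a', b') = g b a * (c (a, b) (a, b') * ((g b' a)⁻¹ * g b' a')) := by
        rw [← k]
        group
      rw [k2]
      group
    have hK : ∀ b b', T₂.adj b b' → ∀ a a', K b b' a = K b b' a' := by
      intro b b' hb a a'
      have := s₁.2.1 a a'
      induction this with
      | refl => rfl
      | tail _ h4 ih => exact ih.trans (hK1 b b' hb _ _ h4)
    obtain ⟨a₀⟩ := s₁.1
    obtain ⟨m, hm⟩ := s₂.2.2 H (fun b b' => K b b' a₀) ⟨fun b b' hb => by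
      change g b a₀ * c (a₀, b) (a₀, b') * (g b' a₀)⁻¹ * (g b' a₀ * c (a₀, b') (a₀, b) *
        (g b a₀)⁻¹) = 1
      have := hc.1 _ _ (av a₀ hb)
      rw [mul_eq_one_iff_eq_inv] at this
      rw [this]
      group, fun u v w h => absurd h (t₂ u v w)⟩
    have hhz : ∀ {a a' : V₁} (b : V₂), T₁.adj a a' →
        c (a, b) (a', b) = (m b * g b a)⁻¹ * (m b * g b a') := by
      intro a a' b h
      rw [hg b a a' h]
      group
    have hvt : ∀ (a : V₁) {b b' : V₂}, T₂.adj b b' →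
        c (a, b) (a, b') = (m b * g b a)⁻¹ * (m b' * g b' a) := by
      intro a b b' h
      have k := hm b b' h
      rw [hK b b' h a₀ a] at k
      change g b a * c (a, b) (a, b') * (g b' a)⁻¹ = (m b)⁻¹ * m b' at k
      rw [mul_inv_eq_iff_eq_mul, ← eq_inv_mul_iff_mul_eq] at k
      rw [k]
      group
    refine ⟨fun x => m x.2 * g x.2 x.1, ?_⟩
    rintro ⟨a, b⟩ ⟨a', b'⟩ hxy
    obtain ⟨h3, h4, h5, h6⟩ := id hxy
    rcases h3 with h3 | h3
    · rcases h4 with h4 | h4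
      · exact absurd (Prod.ext h3 h4) h5
      · have h3' : a = a' := h3
        subst h3'
        exact hvt a h4
    · rcases h4 with h4 | h4
      · have h4' : b = b' := h4
        subst h4'
        exact hhz b h3
      · have k := hc.2 (a, b) (a', b) (a', b') ⟨ah b h3, av a' h4, hxy⟩
        have i := hc.1 _ _ hxy
        rw [mul_eq_one_iff_eq_inv] at k i
        rw [i, ← k, hhz b h3, hvt a' h4]
        group

end product

section action

variable {V₁ V₂ : Type} {T₁ : Cpx V₁} {T₂ : Cpx V₂} {G : Type} [Group G] [MulAction G V₁]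
  [MulAction G V₂]

/-- Actions on connected graphs preserve or exchange the two colours. -/
theorem exists_sign {V : Type} {T : Cpx V} {c : V → Bool} (h : Bip T c) (hT : T.SimplyConn)
    [MulAction G V] (hA : T.Acts G) :
    ∃ χ : G →* Multiplicative (ZMod 2), ∀ g, χ g = 1 → ∀ v, c (g • v) = c v := by
  classical
  obtain ⟨v₀⟩ := hT.1
  have key : ∀ (g : G) (v : V), (c (g • v) = c v ↔ c (g • v₀) = c v₀) := by
    intro g v
    have := hT.2.1 v₀ v
    induction this with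
    | refl => rfl
    | @tail u w _ h4 ih =>
      refine Iff.trans ?_ ih
      rw [h _ _ h4, h _ _ (hA.1 g _ _ h4)]
      exact ⟨fun h => Bool.not_inj h, fun h => by rw [h]⟩
  let χ : G → Multiplicative (ZMod 2) := fun g =>
    if c (g • v₀) = c v₀ then 1 else Multiplicative.ofAdd 1
  have h2 : (Multiplicative.ofAdd 1 : Multiplicative (ZMod 2)) * Multiplicative.ofAdd 1 = 1 := by
    decide
  have h3 : (Multiplicative.ofAdd 1 : Multiplicative (ZMod 2)) ≠ 1 := by decide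
  refine ⟨⟨⟨χ, ?_⟩, ?_⟩, ?_⟩
  · change (if c ((1 : G) • v₀) = c v₀ then 1 else Multiplicative.ofAdd 1) = _
    rw [one_smul, if_pos rfl]
  · intro g g'
    change χ (g * g') = χ g * χ g'
    have k1 := key g (g' • v₀)
    simp only [χ, mul_smul]
    by_cases hg : c (g • v₀) = c v₀
    · rw [if_pos hg, one_mul, k1.2 hg]
    · rw [if_neg hg]
      have k2 : ¬ c (g • g' • v₀) = c (g' • v₀) := fun h => hg (k1.1 h)
      by_cases hg' : c (g' • v₀) = c v₀
      · rw [if_pos hg', mul_one, if_neg]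
        rw [hg'] at k2
        exact k2
      · rw [if_neg hg', h2, if_pos]
        cases e1 : c (g • g' • v₀) <;> cases e2 : c (g' • v₀) <;> cases e3 : c v₀ <;> simp_all
  · intro g hg v
    change χ g = 1 at hg
    rw [key g v]
    by_contra hne
    simp only [χ, if_neg hne] at hg
    exact h3 hg

/-- **Groups acting on a product of two trees**, preserving the colours. -/
theorem prod_col {C : ∀ (G : Type) [Group G], Prop} (hC : CatClass C) (hE : ExtClass C)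
    {c₁ : V₁ → Bool} {c₂ : V₂ → Bool} (h₁ : Bip T₁ c₁) (h₂ : Bip T₂ c₂) (s₁ : T₁.SimplyConn)
    (s₂ : T₂.SimplyConn) (t₁ : ∀ u v w, ¬ T₁.tri u v w) (t₂ : ∀ u v w, ¬ T₂.tri u v w)
    (A₁ : T₁.Acts G) (A₂ : T₂.Acts G) (i₁ : ∀ (g : G) v, c₁ (g • v) = c₁ v)
    (i₂ : ∀ (g : G) v, c₂ (g • v) = c₂ v)
    (hQ : ∀ K : Finset (V₁ × V₂), ∃ (Q : Type) (_ : Group Q) (f : G →* Q), C Q ∧
      ∀ p ∈ K, ∀ g : G, g • p.1 = p.1 → g • p.2 = p.2 → f g = 1 → g = 1) : C G := by
  classical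
  have hinj₁ : ∀ (g : G) {u v : V₁}, g • u = g • v → u = v := fun g {u v} h =>
    MulAction.injective g h
  have hinj₂ : ∀ (g : G) {u v : V₂}, g • u = g • v → u = v := fun g {u v} h =>
    MulAction.injective g h
  have hAd : ∀ (g : G) (x y : V₁ × V₂), Ad T₁ T₂ c₁ c₂ x y → Ad T₁ T₂ c₁ c₂ (g • x) (g • y) := by
    intro g x y h
    obtain ⟨h3, h4, h5, h6⟩ := h
    refine ⟨h3.imp (fun h => by rw [Prod.smul_fst, Prod.smul_fst, h]) (A₁.1 g _ _),
      h4.imp (fun h => by rw [Prod.smul_snd, Prod.smul_snd, h]) (A₂.1 g _ _),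
      fun h => h5 (MulAction.injective g h), fun h7 h8 => ?_⟩
    rw [Prod.smul_fst, Prod.smul_snd, i₁, i₂]
    refine h6 ?_ ?_
    · have := A₁.1 g⁻¹ _ _ h7
      rwa [Prod.smul_fst, Prod.smul_fst, inv_smul_smul, inv_smul_smul] at this
    · have := A₂.1 g⁻¹ _ _ h8
      rwa [Prod.smul_snd, Prod.smul_snd, inv_smul_smul, inv_smul_smul] at this
  refine Pool.Agent.Helper26.GT.mainGT (X := prodC h₁ h₂) hC hE (prod_metric h₁ h₂)
    (prod_link h₁ h₂) (prod_simplyConn h₁ h₂ s₁ s₂ t₁ t₂) ⟨hAd, ?_⟩ ?_ ?_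
  · rintro g u v w ⟨h3, h4, h5⟩
    exact ⟨hAd g _ _ h3, hAd g _ _ h4, hAd g _ _ h5⟩
  · intro g x y
    by_cases h : x.1 = y.1 ∨ x.2 = y.2
    · rw [len_one h, len_one]
      exact h.imp (fun h => by rw [Prod.smul_fst, Prod.smul_fst, h])
        (fun h => by rw [Prod.smul_snd, Prod.smul_snd, h])
    · push Not at h
      rw [len_two h.1 h.2, len_two]
      · exact fun h' => h.1 (hinj₁ g h')
      · exact fun h' => h.2 (hinj₂ g h')
  · intro K
    obtain ⟨Q, hQ', f, hCQ, hf⟩ := hQ (K.image fun a => a.ne.choose)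
    refine ⟨Q, hQ', f, hCQ, fun a ha g hg h1 => ?_⟩
    have h2 : a.ne.choose ∈ a.s := a.ne.choose_spec
    have h3 : g • a.ne.choose = a.ne.choose := by
      by_contra hne
      have h4 : Ad T₁ T₂ c₁ c₂ (g • a.ne.choose) a.ne.choose := a.adj _ (hg _ h2) _ h2 hne
      obtain ⟨h5, h6, -, -⟩ := h4
      refine hne (Prod.ext ?_ ?_)
      · rcases h5 with h5 | h5
        · exact h5
        · have := h₁ _ _ h5
          rw [Prod.smul_fst, i₁] at this
          cases hc : c₁ (a.ne.choose).1 <;> rw [hc] at this <;> cases this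
      · rcases h6 with h6 | h6
        · exact h6
        · have := h₂ _ _ h6
          rw [Prod.smul_snd, i₂] at this
          cases hc : c₂ (a.ne.choose).2 <;> rw [hc] at this <;> cases this
    exact hf _ (Finset.mem_image_of_mem _ ha) g (Prod.ext_iff.1 h3).1 (Prod.ext_iff.1 h3).2 h1

/-- **Groups acting on a product of two trees.** -/
theorem prod_trees {C : ∀ (G : Type) [Group G], Prop} (hC : CatClass C) (hE : ExtClass C)
    (s₁ : T₁.SimplyConn) (s₂ : T₂.SimplyConn) (t₁ : ∀ u v w, ¬ T₁.tri u v w)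
    (t₂ : ∀ u v w, ¬ T₂.tri u v w) (A₁ : T₁.Acts G) (A₂ : T₂.Acts G)
    (hQ : ∀ K : Finset (V₁ × V₂), ∃ (Q : Type) (_ : Group Q) (f : G →* Q), C Q ∧
      ∀ p ∈ K, ∀ g : G, g • p.1 = p.1 → g • p.2 = p.2 → f g = 1 → g = 1) : C G := by
  obtain ⟨c₁, h₁⟩ := exists_bip s₁ t₁
  obtain ⟨c₂, h₂⟩ := exists_bip s₂ t₂
  obtain ⟨χ₁, hχ₁⟩ := exists_sign h₁ s₁ A₁
  obtain ⟨χ₂, hχ₂⟩ := exists_sign h₂ s₂ A₂
  have hfi : (χ₁.prod χ₂).ker.FiniteIndex := by
    refine ⟨?_⟩
    rw [Subgroup.index_ker]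
    have : Finite (χ₁.prod χ₂).range := inferInstance
    exact Nat.card_pos.ne'
  refine hC.finiteIndex G (χ₁.prod χ₂).ker hfi ?_
  have hk : ∀ g : (χ₁.prod χ₂).ker, χ₁ g.1 = 1 ∧ χ₂ g.1 = 1 := fun g =>
    Prod.ext_iff.1 (MonoidHom.mem_ker.1 g.2)
  refine prod_col hC hE h₁ h₂ s₁ s₂ t₁ t₂ ⟨fun g u v h => A₁.1 g.1 u v h,
    fun g u v w h => A₁.2 g.1 u v w h⟩ ⟨fun g u v h => A₂.1 g.1 u v h,
    fun g u v w h => A₂.2 g.1 u v w h⟩ (fun g v => hχ₁ g.1 (hk g).1 v)
    (fun g v => hχ₂ g.1 (hk g).2 v) fun K => ?_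
  obtain ⟨Q, hQ', f, hCQ, hf⟩ := hQ K
  exact ⟨Q, hQ', f.comp (Subgroup.subtype _), hCQ, fun p hp g h3 h4 h5 =>
    Subtype.ext (hf p hp g.1 h3 h4 h5)⟩

end action

end Pool.Agent.Helper50.PT
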