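import Pool.Agent.Helper50.PT.Prod
import Pool.Agent.Helper3.FJ.Mat3
import Pool.Agent.T59.E

/-!
# Groups of matrices of degree two and two discrete valuations
-/

set_option autoImplicit false

namespace Pool.Agent.Helper50.PT

open WithZero Pool.Agent.Helper29.BA Pool.Agent.Helper29.PA Pool.Agent.Helper3.FJ Pool.Agent.T59

open scoped Matrix MatrixGroups Polynomial

section field

variable {K : Type} [Field K] {v₁ v₂ : Valuation K ℤᵐ⁰}

/-- A matrix of determinant of value one in the stabilizer of a class of lattices stabilizes the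
lattices. -/
theorem stab_of_cls {v : Valuation K ℤᵐ⁰} {π : Kˣ} (hπ : v π = exp (-1))
    {Γ : Subgroup (GL (Fin 2) K)} {u : LatSys.Vx (sg v 2 π)} {g : Γ} (hg : g • u = u)
    (hd : dtv v 2 g.1 = 1) : g • LatSys.rep u = LatSys.rep u := by
  have h3 : v g.1.1.det = 1 := congrArg Units.val hd
  have h5 : LatSys.cls (sg v 2 π) (g • LatSys.rep u) = LatSys.cls (sg v 2 π) (LatSys.rep u) := by
    rw [← LatSys.smul_cls, LatSys.cls_rep]
    exact hg
  obtain ⟨k, hk⟩ := LatSys.cls_eq.1 h5.symm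
  have h6 := smul_eq_zpow hπ h3 hk.symm
  rw [h6, zpow_zero] at hk
  exact hk.symm

theorem no_tri_two {v : Valuation K ℤᵐ⁰} {π : Kˣ} (hπ : v π = exp (-1))
    (a b c : LatSys.Vx (sg v 2 π)) : ¬ ((latSys (n := 2) hπ).cpx).tri a b c := by
  refine LatSys.no_tri _ (fun L M N h1 h2 h3 => ?_) a b c
  refine no_chain hπ (n := 2) ![L, M, N, sg v 2 π L] ?_ le_rfl
  intro i
  fin_cases i
  · exact h1
  · exact h2
  · exact h3

/-- **Groups of matrices of degree two** over a field with two discrete valuations. -/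
theorem rank_pair {C : ∀ (G : Type) [Group G], Prop} (hC : CatClass C) (hE : ExtClass C)
    (hv₁ : Function.Surjective v₁) (hv₂ : Function.Surjective v₂) (Γ : Subgroup (GL (Fin 2) K))
    (hQ : ∀ m : ℤ, ∃ (Q : Type) (_ : Group Q) (f : Γ →* Q), C Q ∧
      ∀ g : Γ, f g = 1 → (∀ i j, v₁ (g.1.1 i j) ≤ exp m ∧ v₂ (g.1.1 i j) ≤ exp m) → g = 1) :
    C Γ := by
  classical
  obtain ⟨π₁, hπ₁⟩ := exists_pi hv₁
  obtain ⟨π₂, hπ₂⟩ := exists_pi hv₂
  have h₁ := latSys (n := 2) hπ₁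
  have h₂ := latSys (n := 2) hπ₂
  refine prod_trees (T₁ := h₁.cpx) (T₂ := h₂.cpx) (G := Γ) hC hE h₁.simplyConn h₂.simplyConn
    (no_tri_two hπ₁) (no_tri_two hπ₂) (LatSys.acts h₁) (LatSys.acts h₂) fun S => ?_
  choose M₁ hM₁ using fun L : Latt v₁ 2 => stab_bound hπ₁ L
  choose M₂ hM₂ using fun L : Latt v₂ 2 => stab_bound hπ₂ L
  obtain ⟨Q, _, f, hCQ, hf⟩ :=
    hQ (∑ u ∈ S, (|M₁ (LatSys.rep u.1)| + |M₂ (LatSys.rep u.2)|))
  refine ⟨Q × (ℤᵐ⁰)ˣ × (ℤᵐ⁰)ˣ, inferInstance,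
    f.prod (((dtv v₁ 2).comp Γ.subtype).prod ((dtv v₂ 2).comp Γ.subtype)),
    hC.prod _ _ hCQ (hC.prod _ _ (dtv_class hC.toClosedClass) (dtv_class hC.toClosedClass)),
    fun u hu g hg₁ hg₂ hfg => ?_⟩
  have e1 : f g = 1 := congrArg Prod.fst hfg
  have e2 : dtv v₁ 2 g.1 = 1 := congrArg (fun x => x.2.1) hfg
  have e3 : dtv v₂ 2 g.1 = 1 := congrArg (fun x => x.2.2) hfg
  have k1 := stab_of_cls hπ₁ hg₁ e2
  have k2 := stab_of_cls hπ₂ hg₂ e3
  have hle : |M₁ (LatSys.rep u.1)| + |M₂ (LatSys.rep u.2)| ≤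
      ∑ u ∈ S, (|M₁ (LatSys.rep u.1)| + |M₂ (LatSys.rep u.2)|) :=
    Finset.single_le_sum
      (f := fun u : LatSys.Vx (sg v₁ 2 π₁) × LatSys.Vx (sg v₂ 2 π₂) =>
        |M₁ (LatSys.rep u.1)| + |M₂ (LatSys.rep u.2)|)
      (fun _ _ => add_nonneg (abs_nonneg _) (abs_nonneg _)) hu
  refine hf g e1 fun i j => ⟨?_, ?_⟩
  · refine (hM₁ _ g.1 (le_of_eq k1) i j).trans (exp_le_exp.2 ((le_abs_self _).trans ?_))
    linarith [abs_nonneg (M₂ (LatSys.rep u.2))]
  · refine (hM₂ _ g.1 (le_of_eq k2) i j).trans (exp_le_exp.2 ((le_abs_self _).trans ?_))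
    linarith [abs_nonneg (M₁ (LatSys.rep u.1))]

end field

section ring

variable {R : Type} [CommRing R] [IsDomain R] (w₁ w₂ : Valuation R ℤᵐ⁰)

theorem ring_pair {C : ∀ (G : Type) [Group G], Prop} (hC : CatClass C) (hE : ExtClass C)
    (hw₁ : ∀ x, w₁ x = 0 → x = 0) (hw₂ : ∀ x, w₂ x = 0 → x = 0) (t₁ t₂ : R)
    (ht₁ : w₁ t₁ = exp 1) (ht₂ : w₂ t₂ = exp 1)
    {G : Type} [Group G] (ρ : G →* GL (Fin 2) R) (hρ : Function.Injective ρ)
    (hQ : ∀ m : ℤ, ∃ (Q : Type) (_ : Group Q) (f : G →* Q), C Q ∧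
      ∀ g, f g = 1 → (∀ i j, w₁ ((ρ g).1 i j) ≤ exp m ∧ w₂ ((ρ g).1 i j) ≤ exp m) → g = 1) :
    C G := by
  have hinj : Function.Injective ((toK 2).comp ρ) := toK_inj.comp hρ
  let e : G ≃* ((toK 2).comp ρ).range := MonoidHom.ofInjective hinj
  have he : ∀ g, (e g).1 = toK 2 (ρ g) := fun g => rfl
  refine hC.iso _ _ e.symm ?_
  refine rank_pair hC hE (frv_surj w₁ hw₁ t₁ ht₁) (frv_surj w₂ hw₂ t₂ ht₂) _ fun m => ?_
  obtain ⟨Q, _, f, hCQ, hf⟩ := hQ m
  refine ⟨Q, _, f.comp e.symm.toMonoidHom, hCQ, fun g hg hb => ?_⟩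
  obtain ⟨g, rfl⟩ := e.surjective g
  have h1 : f g = 1 := by simpa using hg
  rw [hf g h1 fun i j => ?_, map_one]
  have := hb i j
  rwa [he, toK_apply, frv_apply, frv_apply] at this

end ring

section nil

variable {C : ∀ (G : Type) [Group G], Prop}

/-- Matrices which are congruent to one modulo an ideal with square zero commute. -/
theorem comm_of_sq {n : ℕ} {B : Type} [CommRing B] {I : Ideal B} (hI : ∀ x ∈ I, ∀ y ∈ I, x * y = 0)
    {a b : Matrix (Fin n) (Fin n) B} (ha : ∀ i j, (a - 1) i j ∈ I) (hb : ∀ i j, (b - 1) i j ∈ I) :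
    a * b = b * a := by
  have h1 : (a - 1) * (b - 1) = 0 := by
    ext i j
    rw [Matrix.mul_apply, Matrix.zero_apply]
    exact Finset.sum_eq_zero fun k _ => hI _ (ha i k) _ (hb k j)
  have h2 : (b - 1) * (a - 1) = 0 := by
    ext i j
    rw [Matrix.mul_apply, Matrix.zero_apply]
    exact Finset.sum_eq_zero fun k _ => hI _ (hb i k) _ (ha k j)
  have h3 : a * b - b * a = (a - 1) * (b - 1) - (b - 1) * (a - 1) := by noncomm_ring
  rw [h1, h2, sub_zero] at h3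
  exact sub_eq_zero.1 h3

theorem GL_sq (hE : ExtClass C) (hA : HasAbCyclic C) {n : ℕ} {B B' : Type} [CommRing B]
    [CommRing B'] (φ : B →+* B') (hφ : ∀ x y, φ x = 0 → φ y = 0 → x * y = 0)
    (h : C (GL (Fin n) B')) : C (GL (Fin n) B) := by
  refine mem_of_abelian_kernel hE hA (Matrix.GeneralLinearGroup.map φ) h fun a b ha hb => ?_
  have key : ∀ g : GL (Fin n) B, Matrix.GeneralLinearGroup.map φ g = 1 →
      ∀ i j, (g.1 - 1) i j ∈ RingHom.ker φ := by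
    intro g hg i j
    have h1 : (Matrix.GeneralLinearGroup.map φ g).1 i j = (1 : Matrix (Fin n) (Fin n) B') i j := by
      rw [hg, Units.val_one]
    have h2 : φ (g.1 i j) = (1 : Matrix (Fin n) (Fin n) B') i j := h1
    rw [RingHom.mem_ker, Matrix.sub_apply, map_sub, h2, Matrix.one_apply, Matrix.one_apply,
      apply_ite φ, map_one, map_zero, sub_self]
  exact Units.ext (comm_of_sq (fun x hx y hy => hφ x y hx hy) (key a ha) (key b hb))

theorem SL_sq (hE : ExtClass C) (hA : HasAbCyclic C) {n : ℕ} {B B' : Type} [CommRing B]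
    [CommRing B'] (φ : B →+* B') (hφ : ∀ x y, φ x = 0 → φ y = 0 → x * y = 0)
    (h : C (Matrix.SpecialLinearGroup (Fin n) B')) : C (Matrix.SpecialLinearGroup (Fin n) B) := by
  refine mem_of_abelian_kernel hE hA (Matrix.SpecialLinearGroup.map φ) h fun a b ha hb => ?_
  have key : ∀ g : Matrix.SpecialLinearGroup (Fin n) B, Matrix.SpecialLinearGroup.map φ g = 1 →
      ∀ i j, (g.1 - 1) i j ∈ RingHom.ker φ := by
    intro g hg i j
    have h2 : φ (g.1 i j) = (1 : Matrix (Fin n) (Fin n) B') i j :=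
      congrArg (fun x : Matrix.SpecialLinearGroup (Fin n) B' => x.1 i j) hg
    rw [RingHom.mem_ker, Matrix.sub_apply, map_sub, h2, Matrix.one_apply, Matrix.one_apply,
      apply_ite φ, map_one, map_zero, sub_self]
  exact Subtype.ext (comm_of_sq (fun x hx y hy => hφ x y hx hy) (key a ha) (key b hb))

/-- The quotients of a ring by the powers of an ideal. -/
theorem pow_quot {R : Type} [CommRing R] (s : R)
    (P : ∀ (B : Type) [CommRing B], Prop)
    (hP : ∀ (B B' : Type) [CommRing B] [CommRing B'] (φ : B →+* B'),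
      (∀ x y, φ x = 0 → φ y = 0 → x * y = 0) → P B' → P B)
    (h : P (R ⧸ Ideal.span {s})) (N : ℕ) : P (R ⧸ Ideal.span {s ^ (N + 1)}) := by
  induction N with
  | zero => rwa [zero_add, pow_one]
  | succ N ih =>
    refine hP _ _ (Ideal.Quotient.factor (S := Ideal.span {s ^ (N + 1 + 1)})
      (T := Ideal.span {s ^ (N + 1)}) ?_) ?_ ih
    · rw [Ideal.span_singleton_le_span_singleton]
      exact pow_dvd_pow _ (Nat.le_succ _)
    · intro x y hx hy
      obtain ⟨x, rfl⟩ := Ideal.Quotient.mk_surjective x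
      obtain ⟨y, rfl⟩ := Ideal.Quotient.mk_surjective y
      rw [Ideal.Quotient.factor_mk, Ideal.Quotient.eq_zero_iff_mem,
        Ideal.mem_span_singleton] at hx hy
      rw [← map_mul, Ideal.Quotient.eq_zero_iff_mem, Ideal.mem_span_singleton]
      obtain ⟨x, rfl⟩ := hx
      obtain ⟨y, rfl⟩ := hy
      exact ⟨s ^ N * x * y, by ring⟩

end nil

section two

variable {C : ∀ (G : Type) [Group G], Prop} {R : Type} [CommRing R] [IsDomain R]
  {w₁ w₂ : Valuation R ℤᵐ⁰}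

/-- Elements which are divisible by a high power of `s` are large. -/
theorem eq_zero_of_dvd {a b : ℕ} (hprod : ∀ x : R, x ≠ 0 → 1 ≤ w₁ x ^ a * w₂ x ^ b) {s : R}
    (hs : exp 1 ≤ w₁ s ^ a * w₂ s ^ b) {m : ℤ} {N : ℕ} (hN : (a + b) * m < N) {x : R}
    (hx : s ^ N ∣ x) (h1 : w₁ x ≤ exp m) (h2 : w₂ x ≤ exp m) : x = 0 := by
  by_contra hne
  obtain ⟨y, rfl⟩ := hx
  have hy : y ≠ 0 := fun h => hne (by rw [h, mul_zero])
  have k1 : w₁ (s ^ N * y) ^ a * w₂ (s ^ N * y) ^ b ≤ exp ((a + b) * m) := by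
    refine (mul_le_mul' (pow_le_pow_left' h1 a) (pow_le_pow_left' h2 b)).trans (le_of_eq ?_)
    rw [← exp_nsmul, ← exp_nsmul, ← exp_add]
    congr 1
    simp only [nsmul_eq_mul]
    ring
  have k2 : w₁ (s ^ N * y) ^ a * w₂ (s ^ N * y) ^ b =
      (w₁ s ^ a * w₂ s ^ b) ^ N * (w₁ y ^ a * w₂ y ^ b) := by
    rw [map_mul, map_mul, map_pow, map_pow, mul_pow, mul_pow, mul_pow, ← pow_mul, ← pow_mul,
      ← pow_mul, ← pow_mul, mul_comm N a, mul_comm N b, mul_mul_mul_comm]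
  have k3 : exp (N : ℤ) ≤ (w₁ s ^ a * w₂ s ^ b) ^ N * (w₁ y ^ a * w₂ y ^ b) := by
    have e1 : exp (N : ℤ) = exp (1 : ℤ) ^ N := by
      rw [← exp_nsmul, nsmul_eq_mul, mul_one]
    rw [← mul_one (exp (N : ℤ)), e1]
    exact mul_le_mul' (pow_le_pow_left' hs N) (hprod y hy)
  rw [← k2] at k3
  have k4 := exp_le_exp.1 (k3.trans k1)
  omega

/-- **Rings with two places at infinity.** -/
theorem two_places_map (hC : CatClass C) (hE : ExtClass C) (hw₁ : ∀ x, w₁ x = 0 → x = 0)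
    (hw₂ : ∀ x, w₂ x = 0 → x = 0) (t₁ t₂ : R) (ht₁ : w₁ t₁ = exp 1) (ht₂ : w₂ t₂ = exp 1)
    {a b : ℕ} (hprod : ∀ x : R, x ≠ 0 → 1 ≤ w₁ x ^ a * w₂ x ^ b) {s : R}
    (hs : exp 1 ≤ w₁ s ^ a * w₂ s ^ b) {G : Type} [Group G] (ρ : G →* GL (Fin 2) R)
    (hρ : Function.Injective ρ)
    (hN : ∀ N : ℕ, ∃ (Q : Type) (_ : Group Q) (f : G →* Q), C Q ∧
      ∀ g, f g = 1 → ∀ i j, s ^ (N + 1) ∣ (ρ g).1 i j - (1 : Matrix (Fin 2) (Fin 2) R) i j) :
    C G := by
  refine ring_pair w₁ w₂ hC hE hw₁ hw₂ t₁ t₂ ht₁ ht₂ ρ hρ fun m => ?_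
  obtain ⟨Q, hQ', f, hCQ, hf⟩ := hN ((a + b) * m.toNat)
  refine ⟨Q, hQ', f, hCQ, fun g hg hb => hρ ?_⟩
  rw [map_one]
  refine Units.ext (Matrix.ext fun i j => ?_)
  rw [Units.val_one]
  refine sub_eq_zero.1 (eq_zero_of_dvd (m := (m.toNat : ℤ)) hprod hs (N := (a + b) * m.toNat + 1)
    (by push_cast; omega) (hf g hg i j) ?_ ?_)
  · refine (Valuation.map_sub _ _ _).trans (max_le ((hb i j).1.trans ?_) ?_)
    · exact exp_le_exp.2 (Int.self_le_toNat m)
    · rw [Matrix.one_apply, apply_ite w₁, map_one, map_zero]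
      split_ifs
      · rw [← exp_zero, exp_le_exp]
        exact Int.natCast_nonneg _
      · exact zero_le
  · refine (Valuation.map_sub _ _ _).trans (max_le ((hb i j).2.trans ?_) ?_)
    · exact exp_le_exp.2 (Int.self_le_toNat m)
    · rw [Matrix.one_apply, apply_ite w₂, map_one, map_zero]
      split_ifs
      · rw [← exp_zero, exp_le_exp]
        exact Int.natCast_nonneg _
      · exact zero_le

/-- `GL_2` over rings with two places at infinity. -/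
theorem GL_two_places (hC : CatClass C) (hE : ExtClass C) (hA : HasAbCyclic C)
    (hw₁ : ∀ x, w₁ x = 0 → x = 0) (hw₂ : ∀ x, w₂ x = 0 → x = 0) (t₁ t₂ : R)
    (ht₁ : w₁ t₁ = exp 1) (ht₂ : w₂ t₂ = exp 1) {a b : ℕ}
    (hprod : ∀ x : R, x ≠ 0 → 1 ≤ w₁ x ^ a * w₂ x ^ b) {s : R}
    (hs : exp 1 ≤ w₁ s ^ a * w₂ s ^ b) (h : C (GL (Fin 2) (R ⧸ Ideal.span {s}))) :
    C (GL (Fin 2) R) := by
  refine two_places_map hC hE hw₁ hw₂ t₁ t₂ ht₁ ht₂ hprod hs (MonoidHom.id _)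
    Function.injective_id fun N => ?_
  refine ⟨GL (Fin 2) (R ⧸ Ideal.span {s ^ (N + 1)}), inferInstance,
    Matrix.GeneralLinearGroup.map (Ideal.Quotient.mk _),
    pow_quot s (fun B _ => C (GL (Fin 2) B))
      (fun B B' _ _ φ hφ h => GL_sq hE hA φ hφ h) h N, fun g hg i j => ?_⟩
  rw [← Ideal.mem_span_singleton, ← Ideal.Quotient.eq_zero_iff_mem, map_sub, sub_eq_zero]
  have h1 : (Matrix.GeneralLinearGroup.map (Ideal.Quotient.mk (Ideal.span {s ^ (N + 1)})) g).1 i j =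
      (1 : Matrix (Fin 2) (Fin 2) (R ⧸ Ideal.span {s ^ (N + 1)})) i j := by
    rw [hg, Units.val_one]
  refine Eq.trans h1 ?_
  rw [Matrix.one_apply, Matrix.one_apply, apply_ite (Ideal.Quotient.mk (Ideal.span {s ^ (N + 1)})),
    map_one, map_zero]

/-- `SL_2` over rings with two places at infinity. -/
theorem SL_two_places (hC : CatClass C) (hE : ExtClass C) (hA : HasAbCyclic C)
    (hw₁ : ∀ x, w₁ x = 0 → x = 0) (hw₂ : ∀ x, w₂ x = 0 → x = 0) (t₁ t₂ : R)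
    (ht₁ : w₁ t₁ = exp 1) (ht₂ : w₂ t₂ = exp 1) {a b : ℕ}
    (hprod : ∀ x : R, x ≠ 0 → 1 ≤ w₁ x ^ a * w₂ x ^ b) {s : R}
    (hs : exp 1 ≤ w₁ s ^ a * w₂ s ^ b)
    (h : C (Matrix.SpecialLinearGroup (Fin 2) (R ⧸ Ideal.span {s}))) :
    C (Matrix.SpecialLinearGroup (Fin 2) R) := by
  refine two_places_map hC hE hw₁ hw₂ t₁ t₂ ht₁ ht₂ hprod hs
    Matrix.SpecialLinearGroup.toGL Matrix.SpecialLinearGroup.toGL_injective fun N => ?_
  refine ⟨Matrix.SpecialLinearGroup (Fin 2) (R ⧸ Ideal.span {s ^ (N + 1)}), inferInstance,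
    Matrix.SpecialLinearGroup.map (Ideal.Quotient.mk _),
    pow_quot s (fun B _ => C (Matrix.SpecialLinearGroup (Fin 2) B))
      (fun B B' _ _ φ hφ h => SL_sq hE hA φ hφ h) h N, fun g hg i j => ?_⟩
  rw [← Ideal.mem_span_singleton, ← Ideal.Quotient.eq_zero_iff_mem, map_sub, sub_eq_zero]
  have h1 : (Ideal.Quotient.mk (Ideal.span {s ^ (N + 1)})) (g.1 i j) =
      (1 : Matrix (Fin 2) (Fin 2) (R ⧸ Ideal.span {s ^ (N + 1)})) i j :=
    congrArg (fun x : Matrix.SpecialLinearGroup (Fin 2) (R ⧸ Ideal.span {s ^ (N + 1)}) => x.1 i j) hg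
  refine Eq.trans h1 ?_
  rw [Matrix.one_apply, Matrix.one_apply, apply_ite (Ideal.Quotient.mk (Ideal.span {s ^ (N + 1)})),
    map_one, map_zero]

end two

end Pool.Agent.Helper50.PT
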